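import Pool.Agent.Helper20.HP.Data2

/-!
# HOPF-T1: the limit form in the moving frame (algebra of 2-jets)
-/

open Filter Metric Module Set
open scoped Topology ContDiff RealInnerProductSpace Manifold Quaternion

namespace Pool.Agent.Helper67.HP
open Pool.Agent.Helper20.HP Pool.Agent.Helper20.PC

lemma inner_three (a b : E3) : ⟪a, b⟫ = a 0 * b 0 + a 1 * b 1 + a 2 * b 2 := by
  simp [PiLp.inner_apply, Fin.sum_univ_three]; ring

/-- orthonormal pairs in coordinates -/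
structure Fr (x X : E3) : Prop where
  hx : x 0 ^ 2 + x 1 ^ 2 + x 2 ^ 2 = 1
  hX : X 0 ^ 2 + X 1 ^ 2 + X 2 ^ 2 = 1
  hxX : x 0 * X 0 + x 1 * X 1 + x 2 * X 2 = 0

lemma Fr.of {x X : E3} (hx : ‖x‖ = 1) (hX : ‖X‖ = 1) (hxX : ⟪x, X⟫ = 0) : Fr x X := by
  have h1 : ⟪x, x⟫ = 1 := by rw [real_inner_self_eq_norm_sq, hx]; norm_num
  have h2 : ⟪X, X⟫ = 1 := by rw [real_inner_self_eq_norm_sq, hX]; norm_num
  rw [inner_three] at h1 h2 hxX
  exact ⟨by linarith [h1], by linarith [h2], hxX⟩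

lemma cr_0 (a b : E3) : cr a b 0 = a 1 * b 2 - a 2 * b 1 := by simp [cr]
lemma cr_1 (a b : E3) : cr a b 1 = a 2 * b 0 - a 0 * b 2 := by simp [cr]
lemma cr_2 (a b : E3) : cr a b 2 = a 0 * b 1 - a 1 * b 0 := by simp [cr]

lemma e3_ext {a b : E3} (h0 : a 0 = b 0) (h1 : a 1 = b 1) (h2 : a 2 = b 2) : a = b := by
  ext i; fin_cases i
  · exact h0
  · exact h1
  · exact h2

/-- a vector in the frame `x, X, x × X`. -/
noncomputable def L (x X : E3) (a b c : ℝ) : E3 := a • x + b • X + c • cr x X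

lemma L_apply (x X : E3) (a b c : ℝ) (i : Fin 3) :
    L x X a b c i = a * x i + b * X i + c * cr x X i := by simp [L]

lemma cr_L {x X : E3} (h : Fr x X) (a b c a' b' c' : ℝ) :
    cr (L x X a b c) (L x X a' b' c')
      = L x X (b * c' - c * b') (c * a' - a * c') (a * b' - b * a') := by
  obtain ⟨hx, hX, hxX⟩ := h
  apply e3_ext
  · simp only [cr_0, L_apply, cr_1, cr_2]
    linear_combination (x 0 * (b * c' - c * b')) * hX
      + (-X 0 * (b * c' - c * b') - x 0 * (c * a' - a * c')) * hxX + (X 0 * (c * a' - a * c')) * hx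
  · simp only [cr_0, L_apply, cr_1, cr_2]
    linear_combination (x 1 * (b * c' - c * b')) * hX
      + (-X 1 * (b * c' - c * b') - x 1 * (c * a' - a * c')) * hxX + (X 1 * (c * a' - a * c')) * hx
  · simp only [cr_0, L_apply, cr_1, cr_2]
    linear_combination (x 2 * (b * c' - c * b')) * hX
      + (-X 2 * (b * c' - c * b') - x 2 * (c * a' - a * c')) * hxX + (X 2 * (c * a' - a * c')) * hx

lemma inner_L {x X : E3} (h : Fr x X) (a b c a' b' c' : ℝ) :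
    ⟪L x X a b c, L x X a' b' c'⟫ = a * a' + b * b' + c * c' := by
  obtain ⟨hx, hX, hxX⟩ := h
  rw [inner_three]
  simp only [cr_0, L_apply, cr_1, cr_2]
  linear_combination (a * a') * hx + (b * b') * hX + (a * b' + b * a') * hxX
    + (c * c') * (hX + (X 0 ^ 2 + X 1 ^ 2 + X 2 ^ 2) * hx
      - (x 0 * X 0 + x 1 * X 1 + x 2 * X 2) * hxX)

variable (κ ε : ℝ) (x X : E3)

lemma x_L : x = L x X 1 0 0 := by simp [L]
lemma X_L : X = L x X 0 1 0 := by simp [L]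
lemma n_L : cr x X = L x X 0 0 1 := by simp [L]
lemma jx1_L : jx1 κ x X = L x X 0 (sg κ x) 0 := by simp [jx1, L]
lemma jX1_L : jX1 κ x X = L x X (-sg κ x) 0 (- sgn κ x X) := by simp [jX1, L]; module
lemma jn1_L : jn1 κ x X = L x X 0 (sgn κ x X) 0 := by simp [jn1, L]
lemma jx2_L : jx2 κ x X = L x X (-sg κ x ^ 2) (js1 κ x X) (-(sg κ x * sgn κ x X)) := by
  simp only [jx2, jX1_L, L]; module
lemma jX2_L : jX2 κ x X = L x X (-js1 κ x X) (-sg κ x ^ 2 - sgn κ x X ^ 2) (- jsn1 κ x X) := by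
  simp only [jX2, jx1_L, jn1_L, L]; module
lemma jn2_L : jn2 κ x X = L x X (-(sg κ x * sgn κ x X)) (jsn1 κ x X) (-sgn κ x X ^ 2) := by
  simp only [jn2, jX1_L, L]; module
lemma jw0_L : jw0 κ ε x X = L x X (sgn κ x X) 0 (rr ε x - sg κ x) := by
  simp only [jw0, L]; module
lemma jw1_L : jw1 κ ε x X
    = L x X (jsn1 κ x X) (rr ε x * sgn κ x X) (ε * (sg κ x * X 2) - js1 κ x X) := by
  have h : jx1 κ x X 2 = sg κ x * X 2 := by simp [jx1]
  rw [jw1, h, jx1_L, jn1_L]; simp only [L]; module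

variable {x X}

lemma L_neg (a b c : ℝ) : - L x X a b c = L x X (-a) (-b) (-c) := by simp only [L]; module
lemma L_sub (a b c a' b' c' : ℝ) :
    L x X a b c - L x X a' b' c' = L x X (a - a') (b - b') (c - c') := by simp only [L]; module

lemma jb1_L (h : Fr x X) (c z y : ℝ) : jb1 κ ε x X (L x X c z y)
    = L x X ((rr ε x - sg κ x) * z) (-((rr ε x - sg κ x) * c) + sgn κ x X * y)
      (-(sgn κ x X * z)) := by
  rw [jb1, jw0_L, cr_L h, L_neg]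
  congr 1 <;> ring

lemma jb2_L (h : Fr x X) (c z y : ℝ) : jb2 κ ε x X (L x X c z y)
    = L x X (- ((rr ε x * sgn κ x X) * y - (ε * (sg κ x * X 2) - js1 κ x X) * z)
        + (rr ε x - sg κ x) * (-((rr ε x - sg κ x) * c) + sgn κ x X * y))
      (- ((ε * (sg κ x * X 2) - js1 κ x X) * c - jsn1 κ x X * y)
        - ((rr ε x - sg κ x) * ((rr ε x - sg κ x) * z) + sgn κ x X * (sgn κ x X * z)))
      (- (jsn1 κ x X * z - rr ε x * sgn κ x X * c)
        - sgn κ x X * (-((rr ε x - sg κ x) * c) + sgn κ x X * y)) := by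
  rw [jb2, jb1_L κ ε h, jw0_L, jw1_L, cr_L h, cr_L h, L_neg, L_sub]
  congr 1 <;> ring

/-- `Jb (c x + z X + y n)` in terms of the jets of the frame. -/
lemma Jb_eq (h : Fr x X) (c z y : ℝ) (i : Fin 3) :
    Jb κ ε x X (L x X c z y) i
      = Jc κ ε x X c z * Jx κ x X i + Jz κ ε x X c z * JX κ x X i + J2.C y * Jn κ x X i := by
  have h2 : jx1 κ x X 2 = sg κ x * X 2 := by simp [jx1]
  apply J2.ext
  · simp [Jb, Jc, Jz, Jx, JX, Jn, L_apply]
  · simp only [Jb, Jc, Jz, Jx, JX, Jn, jb1_L κ ε h, jx1_L, jX1_L, jn1_L, L_apply, J2.add_b,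
      J2.mul_b, J2.C_a, J2.C_b]
    ring
  · simp only [Jb, Jc, Jz, Jx, JX, Jn, jb2_L κ ε h, h2, jx2_L, jX2_L, jn2_L, J2.add_c,
      J2.mul_c, J2.C_a, J2.C_b, J2.C_c]
    simp only [jx1_L, jX1_L, jn1_L, L_apply]
    ring

lemma dot_L (h : Fr x X) (a b c a' b' c' : ℝ) :
    dotG (fun i => L x X a b c i) (fun i => L x X a' b' c' i) = a * a' + b * b' + c * c' := by
  have := inner_L h a b c a' b' c'
  rw [inner_three] at this
  simpa [dotG] using this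

lemma dot_xx (h : Fr x X) : dotG (Jx κ x X) (Jx κ x X) = 1 := by
  have h1 := dot_L h 1 0 0 1 0 0
  have h2 := dot_L h 1 0 0 0 (sg κ x) 0
  have h3 := dot_L h 1 0 0 (-sg κ x ^ 2) (js1 κ x X) (-(sg κ x * sgn κ x X))
  have h4 := dot_L h 0 (sg κ x) 0 0 (sg κ x) 0
  rw [← x_L] at h1 h2 h3
  rw [← jx1_L] at h2 h4
  rw [← jx2_L] at h3
  simp only [dotG] at h1 h2 h3 h4
  apply J2.ext
  · simp only [dotG, Jx, J2.add_a, J2.mul_a, J2.one_a]; linarith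
  · simp only [dotG, Jx, J2.add_b, J2.mul_b, J2.one_b]; linarith
  · simp only [dotG, Jx, J2.add_c, J2.mul_c, J2.one_c]; linarith

lemma dot_xX (h : Fr x X) : dotG (Jx κ x X) (JX κ x X) = 0 := by
  have h1 := dot_L h 1 0 0 0 1 0
  have h2 := dot_L h 0 (sg κ x) 0 0 1 0
  have h2' := dot_L h 1 0 0 (-sg κ x) 0 (- sgn κ x X)
  have h3 := dot_L h 1 0 0 (-js1 κ x X) (-sg κ x ^ 2 - sgn κ x X ^ 2) (- jsn1 κ x X)
  have h4 := dot_L h 0 (sg κ x) 0 (-sg κ x) 0 (- sgn κ x X)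
  have h5 := dot_L h (-sg κ x ^ 2) (js1 κ x X) (-(sg κ x * sgn κ x X)) 0 1 0
  rw [← x_L] at h1 h2' h3
  rw [← X_L] at h1 h2 h5
  rw [← jx1_L] at h2 h4
  rw [← jX1_L] at h2' h4
  rw [← jX2_L] at h3
  rw [← jx2_L] at h5
  simp only [dotG] at h1 h2 h2' h3 h4 h5
  apply J2.ext
  · simp only [dotG, Jx, JX, J2.add_a, J2.mul_a, J2.zero_a]; linarith
  · simp only [dotG, Jx, JX, J2.add_b, J2.mul_b, J2.zero_b]; linarith
  · simp only [dotG, Jx, JX, J2.add_c, J2.mul_c, J2.zero_c]; linarith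

lemma dot_xn (h : Fr x X) : dotG (Jx κ x X) (Jn κ x X) = 0 := by
  have h1 := dot_L h 1 0 0 0 0 1
  have h2 := dot_L h 0 (sg κ x) 0 0 0 1
  have h2' := dot_L h 1 0 0 0 (sgn κ x X) 0
  have h3 := dot_L h 1 0 0 (-(sg κ x * sgn κ x X)) (jsn1 κ x X) (-sgn κ x X ^ 2)
  have h4 := dot_L h 0 (sg κ x) 0 0 (sgn κ x X) 0
  have h5 := dot_L h (-sg κ x ^ 2) (js1 κ x X) (-(sg κ x * sgn κ x X)) 0 0 1
  rw [← x_L] at h1 h2' h3
  rw [← n_L] at h1 h2 h5
  rw [← jx1_L] at h2 h4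
  rw [← jn1_L] at h2' h4
  rw [← jn2_L] at h3
  rw [← jx2_L] at h5
  simp only [dotG] at h1 h2 h2' h3 h4 h5
  apply J2.ext
  · simp only [dotG, Jx, Jn, J2.add_a, J2.mul_a, J2.zero_a]; linarith
  · simp only [dotG, Jx, Jn, J2.add_b, J2.mul_b, J2.zero_b]; linarith
  · simp only [dotG, Jx, Jn, J2.add_c, J2.mul_c, J2.zero_c]; linarith

/-- generic algebra: `SbG` on the diagonal. -/
lemma SbG_diag {R : Type*} [CommRing R] [Algebra ℝ R] (T : ℝ) (u b : Fin 3 → R) :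
    SbG κ ε T u b b = (1/4 : ℝ) • (dotG u b) ^ 2 + (3 : ℝ) • (dotG u b * (ε • b 2))
      + T • QG κ u (fun i => ε • b i) := by
  have h2 : algebraMap ℝ R 2 = 2 := map_ofNat _ 2
  have h3 : algebraMap ℝ R (3/2) + algebraMap ℝ R (3/2) = algebraMap ℝ R 3 := by
    rw [← map_add]; norm_num
  simp only [SbG, QG, FbG, PhG, HbG, Algebra.smul_def, map_mul, map_pow, h2]
  linear_combination (algebraMap ℝ R ε * dotG u b * b 2) * h3

/-- generic algebra: the inner product of `u` and a combination. -/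
lemma dotG_comb {R : Type*} [CommRing R] (u v w : Fin 3 → R) (a b c : R) :
    dotG u (fun i => a * u i + b * v i + c * w i) = a * dotG u u + b * dotG u v + c * dotG u w := by
  simp only [dotG]; ring

lemma S2_eq (T : ℝ) {ε : ℝ} (hε : ε ≠ 0) (h : Fr x X) (c z y : ℝ) :
    S2 κ ε T x X (L x X c z (y / ε)) (L x X c z (y / ε))
      = ((1/4 : ℝ) • (Jc κ ε x X c z) ^ 2 + (3 : ℝ) • (Jc κ ε x X c z *
          (ε • (Jc κ ε x X c z * Jx κ x X 2) + ε • (Jz κ ε x X c z * JX κ x X 2) + J2.C y * Jn κ x X 2))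
        + T • QG κ (Jx κ x X) (fun i => ε • (Jc κ ε x X c z * Jx κ x X i)
          + ε • (Jz κ ε x X c z * JX κ x X i) + J2.C y * Jn κ x X i)).c := by
  have hb : Jb κ ε x X (L x X c z (y / ε)) = fun i => Jc κ ε x X c z * Jx κ x X i
      + Jz κ ε x X c z * JX κ x X i + J2.C (y / ε) * Jn κ x X i := funext fun i => Jb_eq κ ε h c z _ i
  have hy : ∀ i, ε • (Jc κ ε x X c z * Jx κ x X i + Jz κ ε x X c z * JX κ x X i
      + J2.C (y / ε) * Jn κ x X i) = ε • (Jc κ ε x X c z * Jx κ x X i)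
          + ε • (Jz κ ε x X c z * JX κ x X i) + J2.C y * Jn κ x X i := by
    intro i
    have : ε • (J2.C (y / ε) * Jn κ x X i) = J2.C y * Jn κ x X i := by
      apply J2.ext <;> simp <;> field_simp
    rw [smul_add, smul_add, this]
  rw [S2, hb, SbG_diag, dotG_comb, dot_xx κ h, dot_xX κ h, dot_xn κ h, mul_one, mul_zero, mul_zero,
    add_zero, add_zero]
  simp only [hy]

/-! ### the curvature form and its derivative -/

lemma norm_Hv (x : E3) : ‖Hv x‖ ^ 2 = (x 1 + x 2) ^ 2 + x 0 ^ 2 + x 0 ^ 2 := by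
  rw [← real_inner_self_eq_norm_sq, inner_three]
  simp only [Hv]
  simp
  ring

lemma quadD (a b c : ℝ) : HasDerivAt (fun t : ℝ => a + t * b + t ^ 2 * c) b 0 := by
  have h1 := ((hasDerivAt_id (0 : ℝ)).mul_const b).const_add a
  have h2 := ((hasDerivAt_id (0 : ℝ)).pow 2).mul_const c
  exact (h1.add h2).congr_deriv (by simp)

lemma Hb_D (x v : E3) :
    HasDerivAt (fun t : ℝ => Hb (x + t • v) (x + t • v)) (2 * Hb x v) 0 := by
  have : (fun t : ℝ => Hb (x + t • v) (x + t • v))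
      = fun t => Hb x x + t * (2 * Hb x v) + t ^ 2 * Hb v v := by
    funext t; simp [Hb, HbG]; ring
  rw [this]; exact quadD _ _ _

lemma sg_D (x v : E3) : HasDerivAt (fun t : ℝ => sg κ (x + t • v)) (-2 * κ * Hb x v) 0 := by
  have := ((Hb_D x v).const_mul κ).const_sub 1
  exact this.congr_deriv (by ring)

lemma rr_D (x v : E3) : HasDerivAt (fun t : ℝ => rr ε (x + t • v)) (ε * v 2) 0 := by
  have : (fun t : ℝ => rr ε (x + t • v)) = fun t => rr ε x + t * (ε * v 2) + t ^ 2 * 0 := by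
    funext t; simp [rr]; ring
  rw [this]; exact quadD _ _ _

/-- `⟨Hv x, Hv v⟩`. -/
def HH (x v : E3) : ℝ := (x 1 + x 2) * (v 1 + v 2) + 2 * (x 0 * v 0)

lemma Hv_D (x v : E3) : HasDerivAt (fun t : ℝ => ‖Hv (x + t • v)‖ ^ 2) (2 * HH x v) 0 := by
  have : (fun t : ℝ => ‖Hv (x + t • v)‖ ^ 2)
      = fun t => ‖Hv x‖ ^ 2 + t * (2 * HH x v) + t ^ 2 * ‖Hv v‖ ^ 2 := by
    funext t; simp only [norm_Hv, HH]; simp; ring
  rw [this]; exact quadD _ _ _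

/-- the derivative of `Kc`. -/
def DK (κ : ℝ) (x v : E3) : ℝ :=
  2 * sg κ x * (-2 * κ * Hb x v) + 6 * κ * ((-2 * κ * Hb x v) * Hb x x + sg κ x * (2 * Hb x v))
    - 4 * κ ^ 2 * (2 * HH x v - 2 * Hb x x * (2 * Hb x v))

lemma Kc_D (x v : E3) : HasDerivAt (fun t : ℝ => Kc κ (x + t • v)) (DK κ x v) 0 := by
  have h1 := (sg_D κ x v).pow 2
  have h2 := ((sg_D κ x v).const_mul (6 * κ)).mul (Hb_D x v)
  have h3 := ((Hv_D x v).sub ((Hb_D x v).pow 2)).const_mul (4 * κ ^ 2)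
  refine ((h1.add h2).sub h3).congr_deriv ?_
  simp [DK]
  ring

lemma line_D (x v : E3) : HasDerivAt (fun t : ℝ => x + t • v) v 0 := by
  have := ((hasDerivAt_id (0 : ℝ)).smul_const v).const_add x
  simpa using this

lemma om_D (x v : E3) : HasDerivAt (fun t : ℝ => om κ ε (x + t • v))
    (-((DK κ x v - 2 * rr ε x * (ε * v 2)) • x + (Kc κ x - rr ε x ^ 2) • v
      + (ε * (-2 * κ * Hb x v)) • (e3 - x 2 • x) + (ε * sg κ x) • (-(v 2 • x) - x 2 • v))) 0 := by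
  have h2 : HasDerivAt (fun t : ℝ => (x + t • v) 2) (v 2) 0 := by
    have : (fun t : ℝ => (x + t • v) 2) = fun t => x 2 + t * v 2 + t ^ 2 * 0 := by
      funext t; simp
    rw [this]; exact quadD _ _ _
  have e1 := ((Kc_D κ x v).sub ((rr_D ε x v).pow 2)).smul (line_D x v)
  have e2 := ((sg_D κ x v).const_mul ε).smul ((h2.smul (line_D x v)).const_sub e3)
  refine (e1.add e2).neg.congr_deriv ?_
  simp
  module

lemma om_diff (x : E3) : DifferentiableAt ℝ (om κ ε) x := by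
  have hp : ∀ i : Fin 3, DifferentiableAt ℝ (fun y : E3 => y i) x := fun i =>
    (EuclideanSpace.proj (𝕜 := ℝ) i : E3 →L[ℝ] ℝ).differentiableAt
  have h0 := hp 0
  have h1 := hp 1
  have h2 := hp 2
  have e : om κ ε = fun y : E3 => - ((((1 - κ * (y 0 * (y 1 + y 2) + (y 1 + y 2) * y 0)) ^ 2
      + 6 * κ * (1 - κ * (y 0 * (y 1 + y 2) + (y 1 + y 2) * y 0)) *
        (y 0 * (y 1 + y 2) + (y 1 + y 2) * y 0)
      - 4 * κ ^ 2 * ((y 1 + y 2) ^ 2 + y 0 ^ 2 + y 0 ^ 2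
        - (y 0 * (y 1 + y 2) + (y 1 + y 2) * y 0) ^ 2)) - (1/2 + ε * y 2) ^ 2) • y
      + (ε * (1 - κ * (y 0 * (y 1 + y 2) + (y 1 + y 2) * y 0))) • (e3 - y 2 • y)) := by
    funext y
    simp only [om, Kc, norm_Hv, sg, rr, Hb, HbG]
  rw [e]
  fun_prop

lemma om_fderiv (x v : E3) : fderiv ℝ (om κ ε) x v =
    -((DK κ x v - 2 * rr ε x * (ε * v 2)) • x + (Kc κ x - rr ε x ^ 2) • v
      + (ε * (-2 * κ * Hb x v)) • (e3 - x 2 • x) + (ε * sg κ x) • (-(v 2 • x) - x 2 • v)) := by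
  have h1 : HasFDerivAt (om κ ε) (fderiv ℝ (om κ ε) x) (x + (0 : ℝ) • v) := by
    rw [zero_smul, add_zero]; exact (om_diff κ ε x).hasFDerivAt
  have h2 : HasDerivAt (om κ ε ∘ fun t : ℝ => x + t • v) (fderiv ℝ (om κ ε) x v) 0 :=
    HasFDerivAt.comp_hasDerivAt (f := fun t : ℝ => x + t • v) (0 : ℝ) h1 (line_D x v)
  exact h2.unique (om_D κ ε x v)

lemma parseval (h : Fr x X) (p q : E3) : ⟪p, q⟫
    = ⟪p, x⟫ * ⟪q, x⟫ + ⟪p, X⟫ * ⟪q, X⟫ + ⟪p, cr x X⟫ * ⟪q, cr x X⟫ := by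
  obtain ⟨hx, hX, hxX⟩ := h
  simp only [inner_three, cr_0, cr_1, cr_2]
  linear_combination ((p 0 * x 0 + p 1 * x 1 + p 2 * x 2) * (q 0 * x 0 + q 1 * x 1 + q 2 * x 2)) * hX
    + ((p 0 * X 0 + p 1 * X 1 + p 2 * X 2) * (q 0 * X 0 + q 1 * X 1 + q 2 * X 2)) * hx
    - ((p 0 * x 0 + p 1 * x 1 + p 2 * x 2) * (q 0 * X 0 + q 1 * X 1 + q 2 * X 2)
      + (p 0 * X 0 + p 1 * X 1 + p 2 * X 2) * (q 0 * x 0 + q 1 * x 1 + q 2 * x 2)) * hxX
    + (p 0 * q 0 + p 1 * q 1 + p 2 * q 2) * (-(X 0 ^ 2 + X 1 ^ 2 + X 2 ^ 2) * hx - hX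
      + (x 0 * X 0 + x 1 * X 1 + x 2 * X 2) * hxX)

lemma e3_L (h : Fr x X) : e3 = L x X (x 2) (X 2) (cr x X 2) := by
  obtain ⟨hx, hX, hxX⟩ := h
  apply e3_ext
  · simp only [L_apply, cr_0, cr_1, cr_2]
    have : e3 0 = 0 := by simp [e3]
    rw [this]
    linear_combination (x 0 * x 2) * hX + (X 0 * X 2) * hx - (x 0 * X 2 + X 0 * x 2) * hxX
  · simp only [L_apply, cr_0, cr_1, cr_2]
    have : e3 1 = 0 := by simp [e3]
    rw [this]
    linear_combination (x 1 * x 2) * hX + (X 1 * X 2) * hx - (x 1 * X 2 + X 1 * x 2) * hxX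
  · simp only [L_apply, cr_0, cr_1, cr_2]
    have : e3 2 = 1 := by simp [e3]
    rw [this]
    linear_combination (x 2 * x 2) * hX + (X 2 * X 2) * hx - (x 2 * X 2 + X 2 * x 2) * hxX
      + (-(X 0 ^ 2 + X 1 ^ 2 + X 2 ^ 2) * hx - hX
      + (x 0 * X 0 + x 1 * X 1 + x 2 * X 2) * hxX)

lemma Hb_inner (p q : E3) : Hb p q = ⟪Hv p, q⟫ := by
  rw [inner_three]; simp [Hb, HbG, Hv]; ring

lemma HH_inner (p q : E3) : HH p q = ⟪Hv p, Hv q⟫ := by
  rw [inner_three]; simp [HH, Hv]; ring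

lemma Hb_symm (p q : E3) : Hb p q = Hb q p := by simp [Hb, HbG]; ring

lemma Hb_L (p : E3) (a b c : ℝ) :
    Hb p (L x X a b c) = a * Hb p x + b * Hb p X + c * Hb p (cr x X) := by
  simp only [Hb, HbG, L_apply]; ring

lemma HH_L (p : E3) (a b c : ℝ) :
    HH p (L x X a b c) = a * HH p x + b * HH p X + c * HH p (cr x X) := by
  simp only [HH, L_apply]; ring

lemma HH_eq (h : Fr x X) (p q : E3) :
    HH p q = Hb p x * Hb q x + Hb p X * Hb q X + Hb p (cr x X) * Hb q (cr x X) := by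
  rw [HH_inner, parseval h]; simp only [Hb_inner]

lemma norm_Hv_eq (p : E3) : ‖Hv p‖ ^ 2 = HH p p := by rw [norm_Hv, HH]; ring

lemma HbG_xX_a : (HbG (Jx κ x X) (JX κ x X)).a = Hb x X := by simp [HbG, Jx, JX, Hb]
lemma HbG_xn_a : (HbG (Jx κ x X) (Jn κ x X)).a = Hb x (cr x X) := by simp [HbG, Jx, Jn, Hb]
lemma HbG_xx_a : (HbG (Jx κ x X) (Jx κ x X)).a = Hb x x := by simp [HbG, Jx, Hb]
lemma HbG_xX_b : (HbG (Jx κ x X) (JX κ x X)).b = Hb x (jX1 κ x X) + Hb (jx1 κ x X) X := by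
  simp [HbG, Jx, JX, Hb]; ring
lemma HbG_xn_b : (HbG (Jx κ x X) (Jn κ x X)).b
    = Hb x (jn1 κ x X) + Hb (jx1 κ x X) (cr x X) := by
  simp [HbG, Jx, Jn, Hb]; ring
lemma HbG_xx_b : (HbG (Jx κ x X) (Jx κ x X)).b = 2 * Hb x (jx1 κ x X) := by
  simp [HbG, Jx, Hb]; ring

lemma Jsg_a : (Jsg κ x X).a = sg κ x := by
  simp [Jsg, HbG_xx_a, sg]
lemma Jsg_b : (Jsg κ x X).b = -2 * κ * Hb x (jx1 κ x X) := by
  simp [Jsg, HbG_xx_b]; ring
lemma Jr_a : (Jr κ ε x X).a = rr ε x := by simp [Jr, Jx, rr]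
lemma Jr_b : (Jr κ ε x X).b = ε * jx1 κ x X 2 := by simp [Jr, Jx]

lemma JK_a (h : Fr x X) : (JK κ x X).a = Kc κ x := by
  rw [Kc, norm_Hv_eq, HH_eq h]
  simp only [JK, pow_two, J2.sub_a, J2.add_a, J2.mul_a, J2.smul_a, Jsg_a, HbG_xx_a, HbG_xX_a,
    HbG_xn_a]
  ring

lemma JK_b (h : Fr x X) : (JK κ x X).b = DK κ x (jx1 κ x X) := by
  have e1 : Hb (jx1 κ x X) X = sg κ x * Hb X X := by
    rw [Hb_symm, jx1_L, Hb_L]; ring
  have e2 : Hb (jx1 κ x X) (cr x X) = sg κ x * Hb X (cr x X) := by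
    rw [Hb_symm, jx1_L, Hb_L, Hb_symm X]; ring
  have e3 : Hb x (jX1 κ x X) = - sg κ x * Hb x x - sgn κ x X * Hb x (cr x X) := by
    rw [jX1_L, Hb_L]; ring
  have e4 : Hb x (jn1 κ x X) = sgn κ x X * Hb x X := by
    rw [jn1_L, Hb_L]; ring
  have e5 : Hb x (jx1 κ x X) = sg κ x * Hb x X := by
    rw [jx1_L, Hb_L]; ring
  have e6 : HH x (jx1 κ x X) = sg κ x * HH x X := by
    rw [jx1_L, HH_L]; ring
  simp only [JK, pow_two, J2.sub_b, J2.add_b, J2.add_a, J2.mul_b, J2.smul_b, Jsg_a, Jsg_b, HbG_xx_a,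
    HbG_xX_a, HbG_xn_a, HbG_xx_b, HbG_xX_b, HbG_xn_b, DK, e1, e2, e3, e4, e5, e6, HH_eq h x X,
    Hb_symm X x]
  ring

lemma om_L (h : Fr x X) : om κ ε x = L x X (-(Kc κ x - rr ε x ^ 2)) (-(ε * sg κ x * X 2))
    (-(ε * sg κ x * cr x X 2)) := by
  rw [om, e3_L h]; simp only [L]; module

lemma dom_L (h : Fr x X) : dom κ ε x X = L x X
    (-(DK κ x (jx1 κ x X) - 2 * rr ε x * (ε * (sg κ x * X 2))) + ε * sg κ x * (sg κ x * X 2)
      + (rr ε x - sg κ x) * (ε * sg κ x * X 2))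
    (-((Kc κ x - rr ε x ^ 2) * sg κ x + ε * (-2 * κ * Hb x (jx1 κ x X)) * X 2
        - ε * sg κ x * (x 2 * sg κ x))
      - (rr ε x - sg κ x) * (Kc κ x - rr ε x ^ 2) + sgn κ x X * (ε * sg κ x * cr x X 2))
    (-(ε * (-2 * κ * Hb x (jx1 κ x X)) * cr x X 2) - sgn κ x X * (ε * sg κ x * X 2)) := by
  have h2 : jx1 κ x X 2 = sg κ x * X 2 := by simp [jx1]
  have e : om κ ε x = L x X (-(Kc κ x - rr ε x ^ 2)) (-(ε * sg κ x * X 2))
    (-(ε * sg κ x * cr x X 2)) := om_L κ ε h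
  rw [dom, om_fderiv, e, jw0_L, cr_L h, h2]
  generalize DK κ x (jx1 κ x X) = d1
  generalize Hb x (jx1 κ x X) = d2
  rw [jx1_L, e3_L h]
  simp only [L]; module

theorem Pf_eq_Pe {κ ε T : ℝ} (hε : ε ≠ 0) {x X : E3} (hx : ‖x‖ = 1) (hX : ‖X‖ = 1)
    (hxX : ⟪x, X⟫ = 0) (c z y : ℝ) :
    Pf κ ε T x X (c • x + z • X + (y / ε) • cr x X) = Pe κ ε T x X c z y := by
  have h : Fr x X := Fr.of hx hX hxX
  have hL : c • x + z • X + (y / ε) • cr x X = L x X c z (y / ε) := rfl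
  have hy : ε * (y / ε) = y := by field_simp
  have h2 : jx1 κ x X 2 = sg κ x * X 2 := by simp [jx1]
  have hX2 : jX1 κ x X 2 = - sg κ x * x 2 - sgn κ x X * cr x X 2 := by
    rw [jX1_L, L_apply]; ring
  have hn2 : jn1 κ x X 2 = sgn κ x X * X 2 := by simp [jn1]
  have i1 : ⟪L x X c z (y / ε), om κ ε x⟫
      = - (((JK κ x X - Jr κ ε x X ^ 2) * Jc κ ε x X c z + Jsg κ x X *
          (ε • (Jz κ ε x X c z * JX κ x X 2) + J2.C y * Jn κ x X 2)).a) := by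
    rw [om_L κ ε h, inner_L h]
    simp only [pow_two, J2.add_a, J2.sub_a, J2.mul_a, J2.smul_a, Jsg_a, JK_a κ h, Jr_a, J2.C_a, Jc,
      Jz, JX, Jn]
    linear_combination (-(sg κ x * cr x X 2)) * hy
  have i2 : ⟪L x X c z (y / ε), dom κ ε x X⟫
      = - (((JK κ x X - Jr κ ε x X ^ 2) * Jc κ ε x X c z + Jsg κ x X *
          (ε • (Jz κ ε x X c z * JX κ x X 2) + J2.C y * Jn κ x X 2)).b) := by
    rw [dom_L κ ε h, inner_L h]
    simp only [pow_two, J2.add_a, J2.sub_a, J2.mul_a, J2.smul_a, J2.add_b, J2.sub_b, J2.mul_b,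
      J2.smul_b, Jsg_a, Jsg_b, JK_a κ h, JK_b κ h, Jr_a, Jr_b, J2.C_a, J2.C_b, Jc,
      Jz, JX, Jn, h2, hX2, hn2]
    linear_combination (2 * κ * Hb x (jx1 κ x X) * cr x X 2 - sgn κ x X * sg κ x * X 2) * hy
  rw [hL, Pf, S2_eq κ T hε h, i1, i2, Pe, JK_a κ h]
  ring

end Pool.Agent.Helper67.HP
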